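import Mathlib
import Pool.Agent.N980.TL.Stm3

set_option autoImplicit false

open MeasureTheory Filter Topology
open scoped ContDiff

noncomputable section

namespace Pool.Agent.N727.TL

open Pool.Agent.N980.TL (Z Trig)

/-- the torus -/
abbrev T (n : ℕ) : Type := (Fin n → UnitAddCircle) × UnitAddCircle

/-- the projection -/
def pr {n : ℕ} (q : Z n) : T n := (fun i => (q.1 i : UnitAddCircle), (q.2 : UnitAddCircle))

theorem pr_openQuot (n : ℕ) : IsOpenQuotientMap (pr (n := n)) := by
  have h1 : IsOpenQuotientMap (fun x : ℝ => (x : UnitAddCircle)) := QuotientAddGroup.isOpenQuotientMap_mk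
  exact (IsOpenQuotientMap.piMap (fun _ : Fin n => h1)).prodMap h1

theorem pr_sub {n : ℕ} (q r : Z n) : pr (q - r) = pr q - pr r := by
  unfold pr
  ext <;> simp

/-- periodicity -/
def Per {n : ℕ} {V : Type} (g : Z n → V) : Prop :=
  ∀ (x : Fin n → ℝ) (t : ℝ) (k : Fin n → ℤ) (l : ℤ), g (fun i => x i + k i, t + l) = g (x, t)

theorem exists_lift {n : ℕ} {V : Type} [TopologicalSpace V] (g : Z n → V) (hg : Continuous g)
    (hp : Per g) : ∃ G : C(T n, V), ∀ q, G (pr q) = g q := by
  have hq := (pr_openQuot n).isQuotientMap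
  let p : C(Z n, T n) := ⟨pr, (pr_openQuot n).continuous⟩
  have hq' : IsQuotientMap p := hq
  let g' : C(Z n, V) := ⟨g, hg⟩
  have hf : Function.FactorsThrough g' p := by
    intro a b hab
    have h0 : ∀ u v : ℝ, (u : UnitAddCircle) = (v : UnitAddCircle) → ∃ k : ℤ, v = u + k := by
      intro u v huv
      have : ((v - u : ℝ) : UnitAddCircle) = 0 := by
        rw [AddCircle.coe_sub, huv, sub_self]
      obtain ⟨k, hk⟩ := AddCircle.coe_eq_zero_iff (1 : ℝ) |>.1 this
      refine ⟨k, ?_⟩
      simp only [zsmul_eq_mul, mul_one] at hk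
      linarith
    have h1 : ∀ i, ∃ k : ℤ, b.1 i = a.1 i + k := fun i =>
      h0 _ _ (congrFun (congrArg Prod.fst hab) i)
    have h2 : ∃ l : ℤ, b.2 = a.2 + l := h0 _ _ (congrArg Prod.snd hab)
    choose k hk using h1
    obtain ⟨l, hl⟩ := h2
    have : b = (fun i => a.1 i + k i, a.2 + l) := by
      ext i
      · exact hk i
      · exact hl
    show g a = g b
    rw [this, hp]
  refine ⟨hq'.lift g' hf, fun q => ?_⟩
  have := hq'.lift_comp g' hf
  exact congrArg (fun F : C(Z n, V) => F q) this

/-- Haar measure -/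
abbrev mu (n : ℕ) : Measure (T n) := Measure.addHaar


instance (n : ℕ) : (mu n).IsNegInvariant := by
  exact Measure.IsAddHaarMeasure.isNegInvariant_of_regular (mu n)

end Pool.Agent.N727.TL
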