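import Pool.Agent.N727.TL.A

set_option autoImplicit false

open MeasureTheory Filter Topology
open scoped ContDiff

noncomputable section

namespace Pool.Agent.N727.TL

open Pool.Agent.N980.TL (Z Trig)

/-- characters of the torus -/
def E {n : ℕ} (k : (Fin n → ℤ) × ℤ) (y : T n) : ℂ :=
  (∏ i, (fourier (k.1 i) (y.1 i) : ℂ)) * (fourier k.2 y.2 : ℂ)

theorem E_cont {n : ℕ} (k : (Fin n → ℤ) × ℤ) : Continuous (E k : T n → ℂ) := by
  unfold E
  refine Continuous.mul ?_ ?_
  · refine continuous_finsetProd _ fun i _ => ?_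
    exact (fourier (k.1 i)).continuous.comp ((continuous_apply i).comp continuous_fst)
  · exact (fourier k.2).continuous.comp continuous_snd

theorem E_add {n : ℕ} (k : (Fin n → ℤ) × ℤ) (y z : T n) : E k (y + z) = E k y * E k z := by
  unfold E
  simp only [Prod.fst_add, Prod.snd_add, Pi.add_apply, fourier_apply]
  have h : ∀ (m : ℤ) (a b : UnitAddCircle), ((m • (a + b)).toCircle : ℂ) =
      ((m • a).toCircle : ℂ) * ((m • b).toCircle : ℂ) := by
    intro m a b
    rw [smul_add, AddCircle.toCircle_add, Circle.coe_mul]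
  rw [h, Finset.prod_congr rfl (fun i _ => h _ _ _), Finset.prod_mul_distrib]
  ring

theorem E_mul {n : ℕ} (k l : (Fin n → ℤ) × ℤ) (y : T n) : E (k + l) y = E k y * E l y := by
  unfold E
  simp only [Prod.fst_add, Prod.snd_add, Pi.add_apply]
  rw [fourier_add, Finset.prod_congr rfl (fun i _ => fourier_add), Finset.prod_mul_distrib]
  ring

theorem E_zero {n : ℕ} (y : T n) : E 0 y = 1 := by
  unfold E
  simp

theorem E_pr {n : ℕ} (k : (Fin n → ℤ) × ℤ) (q : Z n) :
    E k (pr q) = Complex.exp ((2 * Real.pi * ((∑ i, (k.1 i : ℝ) * q.1 i) + k.2 * q.2) : ℝ) * Complex.I) := by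
  unfold E pr
  simp only [fourier_coe_apply]
  rw [← Complex.exp_sum, ← Complex.exp_add]
  congr 1
  push_cast
  rw [mul_add, add_mul, Finset.mul_sum, Finset.sum_mul]
  congr 1
  · refine Finset.sum_congr rfl fun i _ => ?_
    ring
  · ring

/-- trigonometric polynomials on the torus -/
def IsTP {n : ℕ} (h : T n → ℂ) : Prop :=
  ∃ (ι : Type) (_ : Fintype ι) (k : ι → (Fin n → ℤ) × ℤ) (a : ι → ℂ), ∀ y, h y = ∑ μ, a μ * E (k μ) y

theorem IsTP.cont {n : ℕ} {h : T n → ℂ} (hh : IsTP h) : Continuous h := by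
  obtain ⟨ι, _, k, a, ha⟩ := hh
  have : h = fun y => ∑ μ, a μ * E (k μ) y := funext ha
  rw [this]
  exact continuous_finsetSum _ fun i _ => continuous_const.mul (E_cont _)

theorem isTP_E {n : ℕ} (k : (Fin n → ℤ) × ℤ) (c : ℂ) : IsTP (fun y : T n => c * E k y) :=
  ⟨Unit, inferInstance, fun _ => k, fun _ => c, fun y => by simp⟩

theorem isTP_const {n : ℕ} (c : ℂ) : IsTP (fun _ : T n => c) := by
  have := isTP_E (n := n) 0 c
  simpa [E_zero] using this

theorem IsTP.add {n : ℕ} {h h' : T n → ℂ} (hh : IsTP h) (hh' : IsTP h') :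
    IsTP (fun y => h y + h' y) := by
  obtain ⟨ι, _, k, a, ha⟩ := hh
  obtain ⟨ι', _, k', a', ha'⟩ := hh'
  refine ⟨ι ⊕ ι', inferInstance, Sum.elim k k', Sum.elim a a', fun y => ?_⟩
  show h y + h' y = _
  rw [ha, ha', Fintype.sum_sum_type]
  simp

theorem IsTP.mul {n : ℕ} {h h' : T n → ℂ} (hh : IsTP h) (hh' : IsTP h') :
    IsTP (fun y => h y * h' y) := by
  obtain ⟨ι, _, k, a, ha⟩ := hh
  obtain ⟨ι', _, k', a', ha'⟩ := hh'
  refine ⟨ι × ι', inferInstance, fun p => k p.1 + k' p.2, fun p => a p.1 * a' p.2, fun y => ?_⟩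
  show h y * h' y = _
  rw [ha, ha', Fintype.sum_prod_type, Finset.sum_mul_sum]
  refine Finset.sum_congr rfl fun i _ => Finset.sum_congr rfl fun j _ => ?_
  simp only
  rw [E_mul]
  ring

theorem IsTP.pow {n : ℕ} {h : T n → ℂ} (hh : IsTP h) (m : ℕ) : IsTP (fun y => h y ^ m) := by
  induction m with
  | zero => simpa using isTP_const (n := n) 1
  | succ m ih =>
    have := ih.mul hh
    simpa [pow_succ] using this

theorem IsTP.prod {n : ℕ} {κ : Type} (s : Finset κ) (h : κ → T n → ℂ) (hh : ∀ i, IsTP (h i)) :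
    IsTP (fun y => ∏ i ∈ s, h i y) := by
  classical
  induction s using Finset.induction_on with
  | empty => simpa using isTP_const (n := n) 1
  | insert a s ha ih =>
    have := (hh a).mul ih
    simpa [Finset.prod_insert ha] using this

theorem IsTP.conv {n : ℕ} {h : T n → ℂ} (hh : IsTP h) (F : T n → ℂ) (hF : Continuous F) :
    IsTP (fun z => ∫ y, F y * h (z - y) ∂(mu n)) := by
  obtain ⟨ι, _, k, a, ha⟩ := hh
  refine ⟨ι, inferInstance, k, fun μ => a μ * ∫ y, F y * E (k μ) (-y) ∂(mu n), fun z => ?_⟩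
  simp only [ha, sub_eq_add_neg, E_add]
  have h1 : ∀ y, F y * ∑ μ, a μ * (E (k μ) z * E (k μ) (-y)) =
      ∑ μ, (a μ * E (k μ) z) * (F y * E (k μ) (-y)) := by
    intro y
    rw [Finset.mul_sum]
    refine Finset.sum_congr rfl fun i _ => ?_
    ring
  simp only [h1]
  rw [integral_finsetSum]
  · refine Finset.sum_congr rfl fun i _ => ?_
    rw [integral_const_mul]
    ring
  · intro i _
    apply Continuous.integrable_of_hasCompactSupport
    · exact continuous_const.mul (hF.mul ((E_cont _).comp continuous_neg))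
    · exact HasCompactSupport.of_compactSpace _

theorem IsTP.re {n : ℕ} {h : T n → ℂ} (hh : IsTP h) :
    ∃ (N : ℕ) (D : Trig n N), ∀ q : Z n, (h (pr q)).re = D.val q.1 q.2 := by
  obtain ⟨ι, _, k, a, ha⟩ := hh
  let e := Fintype.equivFin ι
  refine ⟨Fintype.card ι, ⟨fun μ => (k (e.symm μ)).1, fun μ => (k (e.symm μ)).2,
    fun μ => ‖a (e.symm μ)‖, fun μ => (a (e.symm μ)).arg⟩, fun q => ?_⟩
  rw [ha, Complex.re_sum]
  unfold Trig.val Trig.phase
  simp only
  rw [← e.symm.sum_comp (fun μ => (a μ * E (k μ) (pr q)).re)]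
  refine Finset.sum_congr rfl fun μ _ => ?_
  rw [E_pr]
  set θ : ℝ := 2 * Real.pi * ((∑ i, ((k (e.symm μ)).1 i : ℝ) * q.1 i) + (k (e.symm μ)).2 * q.2)
  set w := a (e.symm μ)
  have h1 : w = ‖w‖ * Complex.exp (w.arg * Complex.I) := (Complex.norm_mul_exp_arg_mul_I w).symm
  have h2 : w * Complex.exp ((θ : ℝ) * Complex.I) = (‖w‖ : ℝ) * Complex.exp (((θ + w.arg : ℝ)) * Complex.I) := by
    conv_lhs => rw [h1]
    rw [mul_assoc, ← Complex.exp_add]
    congr 2
    push_cast
    ring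
  rw [h2, Complex.re_ofReal_mul, Complex.exp_ofReal_mul_I_re]

end Pool.Agent.N727.TL
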