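import Pool.Agent.N727.TL.B

set_option autoImplicit false

open MeasureTheory Filter Topology
open scoped ContDiff

noncomputable section

namespace Pool.Agent.N727.TL

open Pool.Agent.N980.TL (Z Trig)

/-- `(1 + cos 2πs)/2` on the circle -/
def c1 (s : UnitAddCircle) : ℝ := (1 + (fourier 1 s : ℂ).re) / 2

theorem c1_cont : Continuous c1 := by
  unfold c1
  exact (continuous_const.add (Complex.continuous_re.comp (fourier 1).continuous)).div_const 2

theorem c1_nonneg (s : UnitAddCircle) : 0 ≤ c1 s := by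
  unfold c1
  have h1 : ‖(fourier 1 s : ℂ)‖ = 1 := by
    rw [fourier_apply]; exact Circle.norm_coe _
  have h2 := Complex.abs_re_le_norm (fourier 1 s : ℂ)
  rw [h1] at h2
  have := (abs_le.1 h2).1
  linarith

theorem c1_le (s : UnitAddCircle) : c1 s ≤ 1 := by
  unfold c1
  have h1 : ‖(fourier 1 s : ℂ)‖ = 1 := by
    rw [fourier_apply]; exact Circle.norm_coe _
  have h2 := Complex.abs_re_le_norm (fourier 1 s : ℂ)
  rw [h1] at h2
  have := (abs_le.1 h2).2
  linarith

theorem c1_zero : c1 0 = 1 := by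
  unfold c1
  simp

theorem c1_lt (s : UnitAddCircle) (hs : s ≠ 0) : c1 s < 1 := by
  refine lt_of_le_of_ne (c1_le s) fun h => hs ?_
  unfold c1 at h
  have h0 : ((fourier 1 s : ℂ)).re = 1 := by linarith
  have h1 : ‖(fourier 1 s : ℂ)‖ = 1 := by
    rw [fourier_apply]; exact Circle.norm_coe _
  have h2 : (fourier 1 s : ℂ) = 1 := by
    apply Complex.ext
    · simpa using h0
    · have h3 : Complex.normSq (fourier 1 s : ℂ) = 1 := by
        rw [Complex.normSq_eq_norm_sq, h1]; norm_num
      rw [Complex.normSq_apply, h0] at h3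
      have : (fourier 1 s : ℂ).im * (fourier 1 s : ℂ).im = 0 := by linarith
      simpa using this
  have h3 : AddCircle.toCircle s = 1 := by
    rw [fourier_one] at h2
    exact Circle.ext (by rw [h2, Circle.coe_one])
  have h4 : AddCircle.toCircle s = AddCircle.toCircle (0 : UnitAddCircle) := by
    rw [h3, AddCircle.toCircle_zero]
  exact AddCircle.injective_toCircle one_ne_zero h4

/-- the product kernel -/
def cc {n : ℕ} (y : T n) : ℝ := (∏ i, c1 (y.1 i)) * c1 y.2

theorem cc_cont (n : ℕ) : Continuous (cc : T n → ℝ) := by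
  unfold cc
  refine Continuous.mul ?_ ?_
  · refine continuous_finsetProd _ fun i _ => ?_
    exact c1_cont.comp ((continuous_apply i).comp continuous_fst)
  · exact c1_cont.comp continuous_snd

theorem cc_nonneg {n : ℕ} (y : T n) : 0 ≤ cc y :=
  mul_nonneg (Finset.prod_nonneg fun _ _ => c1_nonneg _) (c1_nonneg _)

theorem cc_zero (n : ℕ) : cc (0 : T n) = 1 := by
  unfold cc
  simp [c1_zero]

theorem cc_lt {n : ℕ} (y : T n) (hy : y ≠ 0) : cc y < 1 := by
  have h0 : ∏ i, c1 (y.1 i) ≤ 1 := Finset.prod_le_one (fun _ _ => c1_nonneg _) fun _ _ => c1_le _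
  have h0' : 0 ≤ ∏ i, c1 (y.1 i) := Finset.prod_nonneg (fun _ _ => c1_nonneg _)
  by_cases h1 : y.2 = 0
  · have h2 : ∃ i, y.1 i ≠ 0 := by
      by_contra h
      push Not at h
      apply hy
      ext i
      · exact h i
      · exact h1
    obtain ⟨i, hi⟩ := h2
    have h3 : ∏ i, c1 (y.1 i) < 1 := by
      rw [← Finset.mul_prod_erase _ _ (Finset.mem_univ i)]
      have h4 : ∏ j ∈ Finset.univ.erase i, c1 (y.1 j) ≤ 1 :=
        Finset.prod_le_one (fun _ _ => c1_nonneg _) fun _ _ => c1_le _
      have h5 : 0 ≤ ∏ j ∈ Finset.univ.erase i, c1 (y.1 j) :=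
        Finset.prod_nonneg (fun _ _ => c1_nonneg _)
      have h6 := c1_lt _ hi
      have h7 := c1_nonneg (y.1 i)
      nlinarith
    unfold cc
    rw [h1, c1_zero, mul_one]
    exact h3
  · unfold cc
    have h6 := c1_lt _ h1
    have h7 := c1_nonneg y.2
    nlinarith

theorem c1_eq (s : UnitAddCircle) : ((c1 s : ℝ) : ℂ) = 1 / 2 + 1 / 4 * (fourier 1 s : ℂ) + 1 / 4 * (fourier (-1) s : ℂ) := by
  unfold c1
  rw [fourier_neg]
  have : ((fourier 1 s : ℂ).re : ℂ) = ((fourier 1 s : ℂ) + (starRingEnd ℂ) (fourier 1 s : ℂ)) / 2 :=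
    Complex.re_eq_add_conj _
  push_cast
  rw [this]
  ring

theorem isTP_cc (n : ℕ) : IsTP (fun y : T n => ((cc y : ℝ) : ℂ)) := by
  have hE1 : ∀ (i : Fin n) (m : ℤ), IsTP (fun y : T n => (fourier m (y.1 i) : ℂ)) := by
    intro i m
    have := isTP_E (n := n) (Pi.single i m, 0) 1
    refine (congrArg IsTP ?_).mp this
    funext y
    unfold E
    rw [one_mul]
    rw [Finset.prod_eq_single i]
    · simp
    · intro j _ hj
      simp [Pi.single_eq_of_ne hj]
    · intro h
      exact absurd (Finset.mem_univ i) h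
  have hE2 : ∀ (m : ℤ), IsTP (fun y : T n => (fourier m y.2 : ℂ)) := by
    intro m
    have := isTP_E (n := n) (0, m) 1
    refine (congrArg IsTP ?_).mp this
    funext y
    unfold E
    simp
  have h1 : ∀ i : Fin n, IsTP (fun y : T n => ((c1 (y.1 i) : ℝ) : ℂ)) := by
    intro i
    simp only [c1_eq]
    exact ((isTP_const _).add ((isTP_const _).mul (hE1 i 1))).add ((isTP_const _).mul (hE1 i (-1)))
  have h2 : IsTP (fun y : T n => ((c1 y.2 : ℝ) : ℂ)) := by
    simp only [c1_eq]
    exact ((isTP_const _).add ((isTP_const _).mul (hE2 1))).add ((isTP_const _).mul (hE2 (-1)))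
  have h3 := (IsTP.prod Finset.univ _ h1).mul h2
  refine (congrArg IsTP ?_).mp h3
  funext y
  unfold cc
  push_cast
  rfl

/-- the normalised kernels -/
def KK {n : ℕ} (m : ℕ) (y : T n) : ℝ := (∫ z, cc z ^ m ∂(mu n))⁻¹ * cc y ^ m

theorem KK_cont {n : ℕ} (m : ℕ) : Continuous (KK m : T n → ℝ) :=
  continuous_const.mul ((cc_cont n).pow m)

variable {V : Type} [NormedAddCommGroup V] [NormedSpace ℝ V] [CompleteSpace V]

theorem approx {n : ℕ} (G : C(T n, V)) (ε : ℝ) (hε : 0 < ε) :
    ∀ᶠ m : ℕ in atTop, ∀ z, ‖(∫ y, KK m y • G (z - y) ∂(mu n)) - G z‖ ≤ ε := by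
  let Φ : C(T n × T n, V) := ⟨fun p => G (p.2 - p.1), G.continuous.comp (continuous_snd.sub continuous_fst)⟩
  let g : T n → C(T n, V) := Φ.curry
  have hg : Continuous g := Φ.curry.continuous
  have h1 := tendsto_setIntegral_pow_smul_of_unique_maximum_of_isCompact_of_continuousOn (μ := mu n)
    (s := Set.univ) (x₀ := 0) (c := cc) (g := g) isCompact_univ (cc_cont n).continuousOn
    (fun y _ hy => by rw [cc_zero]; exact cc_lt y hy) (fun y _ => cc_nonneg y)
    (by rw [cc_zero]; exact one_pos) (by simp) hg.continuousOn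
  have hg0 : g 0 = G := by
    ext z
    show G (z - 0) = G z
    rw [sub_zero]
  rw [hg0, Metric.tendsto_atTop] at h1
  obtain ⟨N, hN⟩ := h1 ε hε
  filter_upwards [eventually_ge_atTop N] with m hm z
  have h2 := hN m hm
  rw [dist_eq_norm] at h2
  simp only [Measure.restrict_univ] at h2
  have hint : Integrable (fun y => cc y ^ m • g y) (mu n) := by
    apply Continuous.integrable_of_hasCompactSupport
    · exact ((cc_cont n).pow m).smul hg
    · exact HasCompactSupport.of_compactSpace _
  have h3 : ((∫ y, cc y ^ m ∂(mu n))⁻¹ • ∫ y, cc y ^ m • g y ∂(mu n)) z =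
      ∫ y, KK m y • G (z - y) ∂(mu n) := by
    rw [ContinuousMap.smul_apply, ContinuousMap.integral_apply hint, ← integral_smul]
    refine integral_congr_ae (Filter.Eventually.of_forall fun y => ?_)
    simp only [ContinuousMap.smul_apply, KK, smul_smul]
    rfl
  rw [← h3, ← ContinuousMap.sub_apply]
  exact (ContinuousMap.norm_coe_le_norm _ z).trans h2.le

omit [CompleteSpace V] in
theorem deriv_conv {n : ℕ} (m : ℕ) (g : Z n → V) (G : C(T n, V)) (G' : C(T n, Z n →L[ℝ] V))
    (hG : ∀ q, G (pr q) = g q) (hg : Differentiable ℝ g) (hG' : ∀ q, G' (pr q) = fderiv ℝ g q) (q : Z n) :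
    HasFDerivAt (fun q => ∫ y, KK m y • G (pr q - y) ∂(mu n)) (∫ y, KK m y • G' (pr q - y) ∂(mu n)) q := by
  have hpr : Continuous (pr : Z n → T n) := (pr_openQuot n).continuous
  apply hasFDerivAt_integral_of_dominated_of_fderiv_le (𝕜 := ℝ) (s := Set.univ)
    (F := fun q y => KK m y • G (pr q - y)) (F' := fun q y => KK m y • G' (pr q - y))
    (bound := fun y => |KK m y| * ‖G'‖) univ_mem
  · refine Filter.Eventually.of_forall fun r => ?_
    exact ((KK_cont m).smul (G.continuous.comp (continuous_const.sub continuous_id))).aestronglyMeasurable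
  · apply Continuous.integrable_of_hasCompactSupport
    · exact (KK_cont m).smul (G.continuous.comp (continuous_const.sub continuous_id))
    · exact HasCompactSupport.of_compactSpace _
  · exact ((KK_cont m).smul (G'.continuous.comp (continuous_const.sub continuous_id))).aestronglyMeasurable
  · refine Filter.Eventually.of_forall fun y r _ => ?_
    rw [norm_smul, Real.norm_eq_abs]
    exact mul_le_mul_of_nonneg_left (G'.norm_coe_le_norm _) (abs_nonneg _)
  · apply Continuous.integrable_of_hasCompactSupport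
    · exact ((KK_cont m).abs).mul continuous_const
    · exact HasCompactSupport.of_compactSpace _
  · refine Filter.Eventually.of_forall fun y r _ => ?_
    obtain ⟨w, hw⟩ := (pr_openQuot n).surjective y
    have h1 : ∀ r, G (pr r - y) = g (r - w) := by
      intro r
      rw [← hw, ← pr_sub, hG]
    have h2 : G' (pr r - y) = fderiv ℝ g (r - w) := by
      rw [← hw, ← pr_sub, hG']
    simp only [h1, h2]
    have h3 : HasFDerivAt g (fderiv ℝ g (r - w)) (r - w) := (hg _).hasFDerivAt
    have h4 : HasFDerivAt (fun r => g (r - w)) (fderiv ℝ g (r - w)) r := by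
      have h5 := h3.comp r ((hasFDerivAt_id r).sub_const w)
      rw [ContinuousLinearMap.comp_id] at h5
      exact h5
    exact h4.const_smul _

end Pool.Agent.N727.TL
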