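import Pool.Agent.N727.TL.C

set_option autoImplicit false

open MeasureTheory Filter Topology
open scoped ContDiff

noncomputable section

namespace Pool.Agent.N727.TL

open Pool.Agent.N980.TL (Z Trig)

theorem per_fderiv {n : ℕ} {V : Type} [NormedAddCommGroup V] [NormedSpace ℝ V] (g : Z n → V)
    (hg : Per g) : Per (fderiv ℝ g) := by
  intro x t k l
  have h1 : (fun q : Z n => g (q + ((fun i => (k i : ℝ)), (l : ℝ)))) = g := by
    funext q
    exact hg q.1 q.2 k l
  have h2 := fderiv_comp_add_right (𝕜 := ℝ) (f := g) (x := (x, t)) ((fun i => (k i : ℝ)), (l : ℝ))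
  rw [h1] at h2
  exact h2.symm

theorem trig_form {n : ℕ} (m : ℕ) (F : C(T n, ℝ)) :
    ∃ (N : ℕ) (D : Trig n N), ∀ q : Z n,
      (∫ y, KK m y • F (pr q - y) ∂(mu n)) = D.val q.1 q.2 := by
  have h1 : IsTP (fun y : T n => ((KK m y : ℝ) : ℂ)) := by
    have := (isTP_const (n := n) (((∫ z, cc z ^ m ∂(mu n))⁻¹ : ℝ) : ℂ)).mul ((isTP_cc n).pow m)
    refine (congrArg IsTP ?_).mp this
    funext y
    unfold KK
    push_cast
    rfl
  have h2 := h1.conv (fun y => ((F y : ℝ) : ℂ)) (Complex.continuous_ofReal.comp F.continuous)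
  obtain ⟨N, D, hD⟩ := h2.re
  refine ⟨N, D, fun q => ?_⟩
  rw [← hD q]
  have h3 : (∫ y, ((F y : ℝ) : ℂ) * ((KK m (pr q - y) : ℝ) : ℂ) ∂(mu n)) =
      ((∫ y, F y * KK m (pr q - y) ∂(mu n) : ℝ) : ℂ) := by
    rw [← integral_complex_ofReal]
    refine integral_congr_ae (Filter.Eventually.of_forall fun y => ?_)
    simp
  rw [h3, Complex.ofReal_re]
  rw [← integral_sub_left_eq_self (fun y => F y * KK m (pr q - y)) (mu n) (pr q)]
  refine integral_congr_ae (Filter.Eventually.of_forall fun y => ?_)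
  simp only [smul_eq_mul, sub_sub_cancel]
  ring

theorem dens_all : Pool.Agent.N980.TL.S_DENS := by
  intro n f hf hper ε hε
  have hf1 : ContDiff ℝ 1 (fderiv ℝ f) := hf.fderiv_right (by norm_num)
  have hf2 : ContDiff ℝ 0 (fderiv ℝ (fderiv ℝ f)) := hf1.fderiv_right (by norm_num)
  have hp0 : Per f := hper
  have hp1 := per_fderiv f hp0
  have hp2 := per_fderiv _ hp1
  obtain ⟨F, hF⟩ := exists_lift f hf.continuous hp0
  obtain ⟨F', hF'⟩ := exists_lift _ hf1.continuous hp1
  obtain ⟨F'', hF''⟩ := exists_lift _ hf2.continuous hp2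
  obtain ⟨m, h0, h1, h2⟩ := ((approx F ε hε).and ((approx F' ε hε).and (approx F'' ε hε))).exists
  obtain ⟨N, D, hD⟩ := trig_form m F
  refine ⟨N, D, ?_⟩
  have hdf : Differentiable ℝ f := hf.differentiable (by norm_num)
  have hdf1 : Differentiable ℝ (fderiv ℝ f) := hf1.differentiable (by norm_num)
  have hD1 : ∀ q, HasFDerivAt (fun q : Z n => f q - D.val q.1 q.2)
      (fderiv ℝ f q - ∫ y, KK m y • F' (pr q - y) ∂(mu n)) q := by
    intro q
    have := (hdf q).hasFDerivAt.sub (deriv_conv m f F F' hF hdf hF' q)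
    refine this.congr_of_eventuallyEq (Filter.Eventually.of_forall fun r => ?_)
    simp only [Pi.sub_apply, hD]
  have e1 : fderiv ℝ (fun q : Z n => f q - D.val q.1 q.2) =
      fun q => fderiv ℝ f q - ∫ y, KK m y • F' (pr q - y) ∂(mu n) := funext fun q => (hD1 q).fderiv
  have hD2 : ∀ q, HasFDerivAt (fun q : Z n => fderiv ℝ f q - ∫ y, KK m y • F' (pr q - y) ∂(mu n))
      (fderiv ℝ (fderiv ℝ f) q - ∫ y, KK m y • F'' (pr q - y) ∂(mu n)) q := by
    intro q
    exact (hdf1 q).hasFDerivAt.sub (deriv_conv m _ F' F'' hF' hdf1 hF'' q)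
  intro i hi q
  interval_cases i
  · rw [norm_iteratedFDeriv_zero, ← hD, ← hF, norm_sub_rev]
    exact h0 _
  · rw [← norm_iteratedFDeriv_fderiv, norm_iteratedFDeriv_zero, e1]
    beta_reduce
    rw [← hF', norm_sub_rev]
    exact h1 _
  · rw [← norm_iteratedFDeriv_fderiv, ← norm_iteratedFDeriv_fderiv, norm_iteratedFDeriv_zero, e1,
      (hD2 q).fderiv, ← hF'', norm_sub_rev]
    exact h2 _

end Pool.Agent.N727.TL
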