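import Pool.Agent.N980.TL.Stm4

set_option autoImplicit false

open Set Filter Topology NNReal

noncomputable section

namespace Pool.Agent.N727.TL

/-- componentwise truncation -/
def cl {n : ℕ} (R : ℝ) (v : Fin n → ℝ) : Fin n → ℝ := fun i => max (-R) (min R (v i))

theorem cl_lip {n : ℕ} (R : ℝ) (v w : Fin n → ℝ) : ‖cl R v - cl R w‖ ≤ ‖v - w‖ := by
  rw [pi_norm_le_iff_of_nonneg (norm_nonneg _)]
  intro i
  refine le_trans ?_ (norm_le_pi_norm (v - w) i)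
  show |max (-R) (min R (v i)) - max (-R) (min R (w i))| ≤ |v i - w i|
  refine (abs_max_sub_max_le_max _ _ _ _).trans ?_
  rw [sub_self, abs_zero]
  refine max_le (abs_nonneg _) ?_
  refine (abs_min_sub_min_le_max _ _ _ _).trans ?_
  rw [sub_self, abs_zero]
  exact max_le (abs_nonneg _) le_rfl

theorem cl_norm {n : ℕ} (R : ℝ) (hR : 0 ≤ R) (v : Fin n → ℝ) : ‖cl R v‖ ≤ R := by
  rw [pi_norm_le_iff_of_nonneg hR]
  intro i
  show |max (-R) (min R (v i))| ≤ R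
  rw [abs_le]
  exact ⟨le_max_left _ _, max_le (by linarith) (min_le_left _ _)⟩

theorem cl_eq {n : ℕ} (R : ℝ) (v : Fin n → ℝ) (h : ‖v‖ ≤ R) : cl R v = v := by
  funext i
  have h1 : |v i| ≤ R := (norm_le_pi_norm v i).trans h
  rw [abs_le] at h1
  show max (-R) (min R (v i)) = v i
  rw [min_eq_right h1.2, max_eq_right h1.1]

theorem ex_all : Pool.Agent.N980.TL.S_EX := by
  intro n F B L hB hL hF hFB hFL t0 t1 x0 v0 ht
  set R : ℝ := ‖v0‖ + B * (t1 - t0 + 4) with hR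
  have ht' : 0 < t1 - t0 + 4 := by linarith
  have hR0 : 0 ≤ R := by positivity
  let f : ℝ → (Fin n → ℝ) × (Fin n → ℝ) → (Fin n → ℝ) × (Fin n → ℝ) :=
    fun t p => (cl R p.2, F p.1 t)
  let K : ℝ≥0 := ⟨max 1 L, le_trans zero_le_one (le_max_left _ _)⟩
  let M : ℝ≥0 := ⟨max R B, le_trans hR0 (le_max_left _ _)⟩
  let a : ℝ≥0 := M * ⟨t1 - t0 + 4, ht'.le⟩
  have hmem : t0 ∈ Icc (t0 - 2) (t1 + 2) := ⟨by linarith, by linarith⟩
  have hPL : IsPicardLindelof f (⟨t0, hmem⟩ : Icc (t0 - 2) (t1 + 2)) (x0, v0) a 0 M K := by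
    refine ⟨?_, ?_, ?_, ?_⟩
    · intro t _
      apply LipschitzOnWith.of_dist_le_mul
      intro p _ q _
      rw [dist_eq_norm, dist_eq_norm]
      show ‖(cl R p.2, F p.1 t) - (cl R q.2, F q.1 t)‖ ≤ max 1 L * ‖p - q‖
      have hp1 : ‖p.1 - q.1‖ ≤ ‖p - q‖ := norm_fst_le (p - q)
      have hp2 : ‖p.2 - q.2‖ ≤ ‖p - q‖ := norm_snd_le (p - q)
      rw [Prod.mk_sub_mk, Prod.norm_mk]
      have h0 := norm_nonneg (p - q)
      refine max_le ?_ ?_
      · calc ‖cl R p.2 - cl R q.2‖ ≤ ‖p.2 - q.2‖ := cl_lip R _ _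
          _ ≤ 1 * ‖p - q‖ := by rw [one_mul]; exact hp2
          _ ≤ max 1 L * ‖p - q‖ := mul_le_mul_of_nonneg_right (le_max_left _ _) h0
      · calc ‖F p.1 t - F q.1 t‖ ≤ L * ‖p.1 - q.1‖ := hFL _ _ _
          _ ≤ L * ‖p - q‖ := mul_le_mul_of_nonneg_left hp1 hL
          _ ≤ max 1 L * ‖p - q‖ := mul_le_mul_of_nonneg_right (le_max_right _ _) h0
    · intro p _
      apply Continuous.continuousOn
      show Continuous fun t => (cl R p.2, F p.1 t)
      exact continuous_const.prodMk (hF.comp (by fun_prop : Continuous fun t : ℝ => (p.1, t)))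
    · intro t _ p _
      show ‖(cl R p.2, F p.1 t)‖ ≤ max R B
      rw [Prod.norm_mk]
      exact max_le_max (cl_norm R hR0 _) (hFB _ _)
    · show max R B * max (t1 + 2 - t0) (t0 - (t0 - 2)) ≤ max R B * (t1 - t0 + 4) - 0
      rw [sub_zero]
      apply mul_le_mul_of_nonneg_left _ (le_trans hR0 (le_max_left _ _))
      exact max_le (by linarith) (by linarith)
  obtain ⟨α, hα0, hα⟩ := hPL.exists_eq_forall_mem_Icc_hasDerivWithinAt₀
  have hx : ∀ t ∈ Icc (t0 - 2) (t1 + 2), HasDerivWithinAt (fun t => (α t).1) (cl R (α t).2) (Icc (t0 - 2) (t1 + 2)) t := by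
    intro t htt
    exact (ContinuousLinearMap.fst ℝ (Fin n → ℝ) (Fin n → ℝ)).hasFDerivAt.comp_hasDerivWithinAt t (hα t htt)
  have hv : ∀ t ∈ Icc (t0 - 2) (t1 + 2), HasDerivWithinAt (fun t => (α t).2) (F (α t).1 t) (Icc (t0 - 2) (t1 + 2)) t := by
    intro t htt
    exact (ContinuousLinearMap.snd ℝ (Fin n → ℝ) (Fin n → ℝ)).hasFDerivAt.comp_hasDerivWithinAt t (hα t htt)
  have hvb : ∀ t ∈ Icc (t0 - 2) (t1 + 2), ‖(α t).2‖ ≤ R := by
    intro t htt
    have h1 := Convex.norm_image_sub_le_of_norm_hasDerivWithin_le (f := fun t => (α t).2) (C := B) hv (fun s _ => hFB _ _)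
      (convex_Icc _ _) hmem htt
    have hα0' : (α t0).2 = v0 := congrArg Prod.snd hα0
    rw [hα0', Real.norm_eq_abs] at h1
    have h2 : |t - t0| ≤ t1 - t0 + 4 := by
      rw [abs_le]
      constructor <;> linarith [htt.1, htt.2]
    have h3 : ‖(α t).2‖ ≤ ‖v0‖ + ‖(α t).2 - v0‖ := by
      have := norm_add_le v0 ((α t).2 - v0)
      rwa [add_sub_cancel] at this
    have h4 : B * |t - t0| ≤ B * (t1 - t0 + 4) := mul_le_mul_of_nonneg_left h2 hB
    rw [hR]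
    linarith
  refine ⟨fun t => (α t).1, fun t => (α t).2, congrArg Prod.fst hα0, congrArg Prod.snd hα0, ?_⟩
  intro t htt
  have hm : t ∈ Icc (t0 - 2) (t1 + 2) := ⟨by linarith [htt.1], by linarith [htt.2]⟩
  have hn : Icc (t0 - 2) (t1 + 2) ∈ 𝓝 t := Icc_mem_nhds (by linarith [htt.1]) (by linarith [htt.2])
  have h1 := (hx t hm).hasDerivAt hn
  rw [cl_eq R _ (hvb t hm)] at h1
  exact ⟨h1, (hv t hm).hasDerivAt hn⟩

end Pool.Agent.N727.TL
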